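import Pool.Agent.Lib_helper30.Tower.GwpBase

/-!
# Injectivity of the geodesic X-ray transform for towers over general warped products

Let `g` be a Riemannian metric on `ℝ^a`, `k` a Riemannian metric on `ℝ^{n+2}` and `φ` a positive
function on `ℝ^a`, all smooth. Let `G` be a Riemannian metric on `ℝ^a × ℝ^{n+2} × ℝ^m`, with points
`((x, y), w)`, such that the projection `((x, y), w) ↦ (x, y)` is a Riemannian submersion onto the
warped product `g(x) + φ(x) k(y)`, and the horizontal lifts of the vectors of the base are
triangular: the coordinate of index `i` of the `w`-component only depends on the base point and on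
the coordinates `w_j` with `j > i`. Nothing is assumed on the values of `G` on the last `m`
directions. (For `m = 0` these are the warped products `g(x) + φ(x) k(y)` themselves.)

Let `M` be a compact set with Lebesgue null frontier and `f` a continuous function on `M`. Assume that
`a = 1`, or that every point of the projection `S` of `M` to `ℝ^a` lies on an arc of a geodesic of `g`
with end points outside of `S`. If the integral of `f` vanishes along the maximal segments in `M` of
the unit speed geodesics orthogonal to the `w`-directions and almost orthogonal to the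
`y`-directions, then `f = 0` on the closure of the interior of `M`; in particular `f = 0` on `M` if
`M = {r ≥ 0}` is a regular domain of class `C¹`.

There is no other hypothesis on the metrics `g`, `k` and on the function `φ`, none on conjugate
points, on trapping or on the convexity of the boundary, and no foliation condition.
-/

set_option autoImplicit false

open MeasureTheory Set Pool.Agent.XRay

namespace Pool.Agent.Results.MP_ddd602_gt.GeneralWarpedTowers

section general

variable {V : Type} [NormedAddCommGroup V] [NormedSpace ℝ V]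

/-- fields of bilinear forms on the vector space `V` -/
abbrev Forms (V : Type) [NormedAddCommGroup V] [NormedSpace ℝ V] : Type :=
  V → V →L[ℝ] V →L[ℝ] ℝ

/-- the value `g_x(u, v)` -/
noncomputable def val (g : Forms V) (x u v : V) : ℝ := g x u v

/-- `g` is a smooth Riemannian metric -/
def SmoothMetric (g : Forms V) : Prop := IsMetric g ∧ ContDiff ℝ (⊤ : ℕ∞) g

/-- Every point of `S` lies on an arc of a unit speed geodesic of `g` whose end points are not in
`S`. -/
def Escapes (g : Forms V) (S : Set V) : Prop :=
  ∀ x ∈ S, ∃ (c : ℝ → V) (u s t v : ℝ), u < s ∧ s ≤ 0 ∧ 0 ≤ t ∧ t < v ∧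
    UnitGeodesicOn g c (Ioo u v) ∧ c 0 = x ∧ c s ∉ S ∧ c t ∉ S

end general

/-- the base `ℝ^a × ℝ^{n+2}` -/
abbrev Base (a n : ℕ) : Type := EuclideanSpace ℝ (Fin a) × EuclideanSpace ℝ (Fin (n + 2))

/-- the fibre `ℝ^m` -/
abbrev Fibre (m : ℕ) : Type := EuclideanSpace ℝ (Fin m)

/-- the space `(ℝ^a × ℝ^{n+2}) × ℝ^m`, with its usual structures (the next three instances) -/
def Sp (a n m : ℕ) : Type := Base a n × Fibre m

noncomputable instance group (a n m : ℕ) : NormedAddCommGroup (Sp a n m) :=
  inferInstanceAs (NormedAddCommGroup (Base a n × Fibre m))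

noncomputable instance space (a n m : ℕ) : NormedSpace ℝ (Sp a n m) :=
  inferInstanceAs (NormedSpace ℝ (Base a n × Fibre m))

noncomputable instance measure (a n m : ℕ) : MeasureSpace (Sp a n m) :=
  inferInstanceAs (MeasureSpace (Base a n × Fibre m))

variable {a n m : ℕ}

/-- the vector with base component `u` and fibre component `w` -/
def vec (u : Base a n) (w : Fibre m) : Sp a n m := (u, w)

/-- the projection of `M` to `ℝ^a` -/
def proj (M : Set (Sp a n m)) : Set (EuclideanSpace ℝ (Fin a)) := (fun z => z.1.1) '' M

/-- the metric `g(x) + φ(x) k(y)` of the base at the point `p = (x, y)`, on `u`, `v` -/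
noncomputable def warped (g : Forms (EuclideanSpace ℝ (Fin a))) (φ : EuclideanSpace ℝ (Fin a) → ℝ)
    (k : Forms (EuclideanSpace ℝ (Fin (n + 2)))) (p u v : Base a n) : ℝ :=
  val g p.1 u.1 v.1 + φ p.1 * val k p.2 u.2 v.2

/-- `φ(x)² k_y(v₂, v₂) < δ` at the point `p = (x, y)`: the velocity `v = (v₁, v₂)` is almost
orthogonal to the `y`-directions -/
def Almost (φ : EuclideanSpace ℝ (Fin a) → ℝ) (k : Forms (EuclideanSpace ℝ (Fin (n + 2)))) (δ : ℝ)
    (p v : Base a n) : Prop :=
  φ p.1 ^ 2 * val k p.2 v.2 v.2 < δ

/-- The coordinate of index `i` of `L z u` only depends on `u`, on the base component of `z`, and on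
the fibre coordinates of `z` with index `j > i`. -/
def Triangular (L : Sp a n m → Base a n → Fibre m) : Prop :=
  ∀ (i : Fin m) (z z' : Sp a n m) (u : Base a n), z.1 = z'.1 → (∀ j, i < j → z.2 j = z'.2 j) →
    L z u i = L z' u i

/-- `g`, `k` are smooth Riemannian metrics and `φ` is a smooth positive function. `G` is a Riemannian
metric (with differentiable coefficients), the projection to the base with the warped product metric
`g(x) + φ(x) k(y)` is a Riemannian submersion, and the horizontal lift `(u, L z u)` of `u` at `z` is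
triangular. -/
structure WarpedTower (g : Forms (EuclideanSpace ℝ (Fin a))) (φ : EuclideanSpace ℝ (Fin a) → ℝ)
    (k : Forms (EuclideanSpace ℝ (Fin (n + 2)))) (G : Forms (Sp a n m)) : Prop where
  smoothg : SmoothMetric g
  smoothk : SmoothMetric k
  smoothφ : ContDiff ℝ (⊤ : ℕ∞) φ
  pos : ∀ x, 0 < φ x
  metric : IsMetric G
  lift : ∃ L : Sp a n m → Base a n → Fibre m, Triangular L ∧
    ∀ z u v, val G z (vec u (L z u)) v = warped g φ k z.1 u v.1

/-- The integrals of `f` vanish along the maximal segments in `M` of the unit speed geodesics which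
are orthogonal to the fibres and whose projection to the base satisfies the condition `P`. -/
def HorizontalZero (G : Forms (Sp a n m)) (M : Set (Sp a n m)) (f : Sp a n m → ℝ)
    (P : Base a n → Base a n → Prop) : Prop :=
  ∀ (γ : ℝ → Sp a n m) (u v s t : ℝ), u < s → s < t → t < v → UnitGeodesicOn G γ (Ioo u v) →
    (∀ τ ∈ Ioo u v, (∀ w, val G (γ τ) (deriv γ τ) (vec 0 w) = 0) ∧ P (γ τ).1 (deriv γ τ).1) →
    MaximalSegment M γ s t → ∫ τ in s..t, f (γ τ) = 0

/-- `M` is a compact set with Lebesgue null frontier and `f` is continuous on `M`. -/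
def NullFrontier (M : Set (Sp a n m)) (f : Sp a n m → ℝ) : Prop :=
  IsCompact M ∧ volume (frontier M) = 0 ∧ ContinuousOn f M

/-- `{r ≥ 0}` is a compact regular domain of class `C¹` and `f` is continuous on it. -/
def RegularDomain (r f : Sp a n m → ℝ) : Prop :=
  ContDiff ℝ 1 r ∧ (∀ z, r z = 0 → fderiv ℝ r z ≠ 0) ∧ IsCompact {z | 0 ≤ r z} ∧
    ContinuousOn f {z | 0 ≤ r z}

/-- Injectivity of the geodesic X-ray transform on compact domains for the towers over the general
warped products with fibre of dimension at least two, (1) already from the horizontal geodesics with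
`φ² k(y', y') < δ`, (2) the case of a regular domain. -/
theorem result (a n m : ℕ) (g : Forms (EuclideanSpace ℝ (Fin a)))
    (φ : EuclideanSpace ℝ (Fin a) → ℝ) (k : Forms (EuclideanSpace ℝ (Fin (n + 2))))
    (G : Forms (Sp a n m)) (hG : WarpedTower g φ k G) :
    (∀ (M : Set (Sp a n m)) (f : Sp a n m → ℝ) (δ : ℝ), NullFrontier M f → 0 < δ →
      (a = 1 ∨ Escapes g (proj M)) → HorizontalZero G M f (Almost φ k δ) →
      ∀ z ∈ closure (interior M), f z = 0) ∧
    (∀ r f : Sp a n m → ℝ, RegularDomain r f → (a = 1 ∨ Escapes g (proj {z | 0 ≤ r z})) →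
      HorizontalZero G {z | 0 ≤ r z} f (fun _ _ => True) → ∀ z, 0 ≤ r z → f z = 0) := by
  have haar : (volume : Measure (Base a n)).IsAddHaarMeasure := by
    rw [Measure.volume_eq_prod]; infer_instance
  have hM : WPG.Met g φ k := ⟨hG.smoothg.1, hG.smoothk.1, hG.smoothg.2, hG.smoothk.2, hG.smoothφ,
    hG.pos⟩
  have hm : IsMetric (WPG.wf g φ k) := XTower.wf_metric hM
  have hT : XTower.Tower (WPG.wf g φ k) G := by
    obtain ⟨L, h1, h2⟩ := hG.lift
    exact ⟨L, fun z u v => (h2 z u v).trans (WPG.wf_apply g φ k z.1 u v.1).symm, h1⟩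
  have p1 : ∀ (M : Set (Sp a n m)) (f : Sp a n m → ℝ) (δ : ℝ), NullFrontier M f → 0 < δ →
      (a = 1 ∨ Escapes g (proj M)) → HorizontalZero G M f (Almost φ k δ) →
      ∀ z ∈ closure (interior M), f z = 0 := by
    intro M f δ hN hδ hE h0
    have hP : ∀ x ∈ proj M, WPG.Passes g (proj M) x := by
      rcases hE with h1 | h1
      · subst h1
        intro x _
        exact WPG.ONE g hG.smoothg.1 _ (hN.1.image (continuous_fst.comp continuous_fst)) x
      · exact h1
    exact XTower.tower_injective hm hG.metric hT (WPG.DET a n g φ k hM _ hP δ hδ) hN.1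
      (fun z hz => ⟨⟨z, hz, rfl⟩, mem_univ _⟩) hN.2.1 hN.2.2 h0
  refine ⟨p1, ?_⟩
  intro r f hr hE h0 z hz
  refine p1 _ f 1 ⟨hr.2.2.1, XTower.reg_null (Y := Base a n) (m := m) hr.1 hr.2.1, hr.2.2.2⟩
    one_pos hE ?_ z (XTower.reg_closure (Y := Base a n) (m := m) hr.1 hr.2.1 hz)
  intro γ u v s t hus hst htv hγ hP hseg
  exact h0 γ u v s t hus hst htv hγ (fun τ hτ => ⟨(hP τ hτ).1, trivial⟩) hseg

end Pool.Agent.Results.MP_ddd602_gt.GeneralWarpedTowers
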