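import Pool.Agent.Lib_helper30.Tower.LvnBase

/-!
# Injectivity of the geodesic X-ray transform: Liouville metrics in at least three variables

Let `k ≥ 3`, let `U_1, …, U_k` be differentiable functions of one variable with
`W(x) = U_1(x_1) + … + U_k(x_k) > 0`, and let `G` be a Riemannian metric on `ℝ^k × ℝ^m` such that the
projection to `ℝ^k` is a Riemannian submersion onto `ℝ^k` with the Liouville metric `W |dx|²`, and
the horizontal lifts of the vectors of `ℝ^k` are triangular: the coordinate of index `i` of the fibre
component only depends on the base point and on the fibre coordinates of index `j > i`. Nothing is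
assumed on the values of `G` on the fibres. (`m = 0`: all Liouville metrics in `k` variables.)

Let `M` be a compact set with Lebesgue null frontier and `f` a continuous function on `M`. If the
integral of `f` vanishes along the maximal segments in `M` of all the unit speed geodesics which are
orthogonal to the fibres, then `f = 0` on the closure of the interior of `M`; in particular `f = 0`
on `M` if `M = {ρ ≥ 0}` is a regular domain of class `C¹`. It is enough to know this for the geodesics
along which the `k` Liouville integrals `W² v_i² - U_i` are close to suitable constants `c_i`.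

There is no hypothesis on conjugate points, on trapping or on the convexity of the boundary, and no
foliation condition.
-/

set_option autoImplicit false

open MeasureTheory Set Pool.Agent.XRay

namespace Pool.Agent.Results.MP_ddd602_gt.LiouvilleHigher

/-- the base `ℝ^k` -/
abbrev Base (k : ℕ) : Type := EuclideanSpace ℝ (Fin k)

/-- the fibre `ℝ^m` -/
abbrev Fibre (m : ℕ) : Type := EuclideanSpace ℝ (Fin m)

/-- the space `ℝ^k × ℝ^m`, with its usual structures (the next three instances) -/
def Sp (k m : ℕ) : Type := Base k × Fibre m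

noncomputable instance group (k m : ℕ) : NormedAddCommGroup (Sp k m) :=
  inferInstanceAs (NormedAddCommGroup (Base k × Fibre m))

noncomputable instance space (k m : ℕ) : NormedSpace ℝ (Sp k m) :=
  inferInstanceAs (NormedSpace ℝ (Base k × Fibre m))

noncomputable instance measure (k m : ℕ) : MeasureSpace (Sp k m) :=
  inferInstanceAs (MeasureSpace (Base k × Fibre m))

variable {k m : ℕ}

/-- fields of bilinear forms on this space -/
abbrev Forms (k m : ℕ) : Type := Sp k m → Sp k m →L[ℝ] Sp k m →L[ℝ] ℝ

/-- the vector with base component `u` and fibre component `w` -/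
def vec (u : Base k) (w : Fibre m) : Sp k m := (u, w)

/-- the conformal factor `W(y) = U_1(y_1) + … + U_k(y_k)` -/
noncomputable def factor (U : Fin k → ℝ → ℝ) (y : Base k) : ℝ := ∑ i, U i (y i)

/-- the Liouville metric `W |dy|²` of `ℝ^k` at the point `y`, on the vectors `u`, `v` -/
noncomputable def liouville (U : Fin k → ℝ → ℝ) (y u v : Base k) : ℝ :=
  factor U y * ∑ i, u i * v i

/-- its classical first integrals `W² v_i² - U_i(y_i)` (on unit vectors their sum is `0`) -/
noncomputable def firstIntegral (U : Fin k → ℝ → ℝ) (y v : Base k) (i : Fin k) : ℝ :=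
  factor U y ^ 2 * v i ^ 2 - U i (y i)

/-- The coordinate of index `i` of `L z u` only depends on `u`, on the base component of `z`, and on
the fibre coordinates of `z` with index `j > i`. -/
def Triangular (L : Sp k m → Base k → Fibre m) : Prop :=
  ∀ (i : Fin m) (z z' : Sp k m) (u : Base k), z.1 = z'.1 → (∀ j, i < j → z.2 j = z'.2 j) →
    L z u i = L z' u i

/-- `G` is a Riemannian metric (with differentiable coefficients), the projection to `ℝ^k` with the
Liouville metric of the `U_i` (differentiable, `W > 0`) is a Riemannian submersion, and the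
horizontal lift `(u, L z u)` of `u` at the point `z` is triangular. -/
structure LiouvilleTower (U : Fin k → ℝ → ℝ) (G : Forms k m) : Prop where
  diff : ∀ i, Differentiable ℝ (U i)
  pos : ∀ y : Base k, 0 < factor U y
  metric : IsMetric G
  lift : ∃ L : Sp k m → Base k → Fibre m, Triangular L ∧
    ∀ z u v, G z (vec u (L z u)) v = liouville U z.1 u v.1

/-- The integrals of `f` vanish along the maximal segments in `M` of the unit speed geodesics which
are orthogonal to the fibres and whose projection to `ℝ^k` satisfies the condition `P`. -/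
def HorizontalZero (G : Forms k m) (M : Set (Sp k m)) (f : Sp k m → ℝ)
    (P : Base k → Base k → Prop) : Prop :=
  ∀ (γ : ℝ → Sp k m) (u v s t : ℝ), u < s → s < t → t < v → UnitGeodesicOn G γ (Ioo u v) →
    (∀ τ ∈ Ioo u v, (∀ w, G (γ τ) (deriv γ τ) (vec 0 w) = 0) ∧ P (γ τ).1 (deriv γ τ).1) →
    MaximalSegment M γ s t → ∫ τ in s..t, f (γ τ) = 0

/-- `M` is a compact set with Lebesgue null frontier and `f` is continuous on `M`. -/
def NullFrontier (M : Set (Sp k m)) (f : Sp k m → ℝ) : Prop :=
  IsCompact M ∧ volume (frontier M) = 0 ∧ ContinuousOn f M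

/-- `{ρ ≥ 0}` is a compact regular domain of class `C¹` and `f` is continuous on it. -/
def RegularDomain (ρ f : Sp k m → ℝ) : Prop :=
  ContDiff ℝ 1 ρ ∧ (∀ z, ρ z = 0 → fderiv ℝ ρ z ≠ 0) ∧ IsCompact {z | 0 ≤ ρ z} ∧
    ContinuousOn f {z | 0 ≤ ρ z}

/-- Injectivity of the geodesic X-ray transform on compact domains for the towers over Liouville
metrics in `k ≥ 3` variables: (1) from the horizontal geodesics with Liouville integrals close to
`c_1, …, c_k`, (2) from all horizontal geodesics, (3) the case of a regular domain. -/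
theorem result (k m : ℕ) (hk : 3 ≤ k) (U : Fin k → ℝ → ℝ) (G : Forms k m)
    (hG : LiouvilleTower U G) :
    (∀ (M : Set (Sp k m)) (f : Sp k m → ℝ) (c : Fin k → ℝ) (δ : ℝ), NullFrontier M f → 0 < δ →
      ∑ i, c i = 0 → (∀ z ∈ M, ∀ i, 0 < U i (z.1 i) + c i) →
      HorizontalZero G M f (fun y v => ∀ i, |firstIntegral U y v i - c i| < δ) →
      ∀ z ∈ closure (interior M), f z = 0) ∧
    (∀ (M : Set (Sp k m)) (f : Sp k m → ℝ), NullFrontier M f →
      HorizontalZero G M f (fun _ _ => True) → ∀ z ∈ closure (interior M), f z = 0) ∧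
    (∀ ρ f : Sp k m → ℝ, RegularDomain ρ f → HorizontalZero G {z | 0 ≤ ρ z} f (fun _ _ => True) →
      ∀ z, 0 ≤ ρ z → f z = 0) := by
  obtain ⟨n, rfl⟩ : ∃ n, k = n + 3 := ⟨k - 3, by omega⟩
  have hpos : ∀ x : Fin (n + 3) → ℝ, 0 < ∑ i, U i (x i) := fun x => hG.pos (WithLp.toLp 2 x)
  have hm : IsMetric (XTower.lvnForm U) := XTower.lvnForm_metric hG.diff hpos
  have hin : ∀ y u v : Base (n + 3), XTower.lvnForm U y u v = liouville U y u v := by
    intro y u v
    rw [XTower.lvnForm_apply, liouville, factor, PiLp.inner_apply]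
    congr 1
    refine Finset.sum_congr rfl fun i _ => ?_
    simp [mul_comm]
  have hT : XTower.Tower (XTower.lvnForm U) G := by
    obtain ⟨L, h1, h2⟩ := hG.lift
    exact ⟨L, fun z u v => (h2 z u v).trans (hin z.1 u v.1).symm, h1⟩
  have p1 : ∀ (M : Set (Sp (n + 3) m)) (f : Sp (n + 3) m → ℝ) (c : Fin (n + 3) → ℝ) (δ : ℝ),
      NullFrontier M f → 0 < δ → ∑ i, c i = 0 → (∀ z ∈ M, ∀ i, 0 < U i (z.1 i) + c i) →
      HorizontalZero G M f (fun y v => ∀ i, |firstIntegral U y v i - c i| < δ) →
      ∀ z ∈ closure (interior M), f z = 0 := by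
    intro M f c δ hM hδ hc hb h0
    exact XTower.tower_injective hm hG.metric hT
      (XTower.lvn_detOn hG.diff hpos c hc hδ) hM.1 hb hM.2.1 hM.2.2 h0
  have p2 : ∀ (M : Set (Sp (n + 3) m)) (f : Sp (n + 3) m → ℝ), NullFrontier M f →
      HorizontalZero G M f (fun _ _ => True) → ∀ z ∈ closure (interior M), f z = 0 := by
    intro M f hM h0 z hz
    have hne : M.Nonempty := by
      by_contra hcon
      rw [Set.not_nonempty_iff_eq_empty] at hcon
      rw [hcon] at hz
      simp at hz
    have hmin : ∀ i, ∃ x ∈ M, ∀ w ∈ M, U i (x.1 i) ≤ U i (w.1 i) := by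
      intro i
      have c0 : Continuous (fun z : Base (n + 3) × Fibre m => U i (z.1 i)) :=
        (hG.diff i).continuous.comp (by fun_prop)
      exact hM.1.exists_isMinOn hne c0.continuousOn
    choose x hx hxm using hmin
    have h3 : 0 < ∑ j, U j ((x j).1 j) := hpos fun j => (x j).1 j
    set S := ∑ j, U j ((x j).1 j) with hS
    have hn : (0 : ℝ) < (n : ℝ) + 3 := by positivity
    apply p1 M f (fun i => S / (n + 3) - U i ((x i).1 i)) 1 hM one_pos _ _ _ z hz
    · rw [Finset.sum_sub_distrib, Finset.sum_const, Finset.card_univ, Fintype.card_fin,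
        nsmul_eq_mul, ← hS]
      push_cast
      field_simp
      ring
    · intro w hw i
      have h4 := hxm i w hw
      have h5 : 0 < S / (n + 3) := div_pos h3 hn
      linarith
    · intro γ u v s t hus hst htv hγ hP hseg
      exact h0 γ u v s t hus hst htv hγ (fun τ hτ => ⟨(hP τ hτ).1, trivial⟩) hseg
  refine ⟨p1, p2, ?_⟩
  intro ρ f hρ h0 z hz
  exact p2 _ f ⟨hρ.2.2.1, XTower.reg_null (Y := Base (n + 3)) (m := m) hρ.1 hρ.2.1, hρ.2.2.2⟩ h0 z
    (XTower.reg_closure (Y := Base (n + 3)) (m := m) hρ.1 hρ.2.1 hz)

end Pool.Agent.Results.MP_ddd602_gt.LiouvilleHigher
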