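import Pool.Agent.LIO.Preview
import Pool.Agent.LIO.All

/-!
# Injectivity of the geodesic X-ray transform for Liouville metrics

The geodesic X-ray transform is injective on every compact domain of `ℝ²` with an arbitrary Liouville
metric `(U(x) + V(y))(dx² + dy²)`. More generally, let `N = n + 2 ≥ 2` and let `G` be a Riemannian
metric on `ℝ^N` such that on the planes `z_2 = const, ..., z_{N-1} = const` it is the Liouville metric
`(U(z_0) + V(z_1))(dz_0² + dz_1²)`, and these planes are orthogonal to the last `n` directions;
otherwise `G` is arbitrary. Let `M` be a compact set with Lebesgue null frontier and `f` a continuous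
function on `M`. If the integral of `f` vanishes along the maximal segments in `M` of all unit speed
geodesics contained in one of these planes, then `f = 0` on the closure of the interior of `M`; in
particular `f = 0` on `M` if `M = {ρ ≥ 0}` is a regular domain of class `C¹`. It is enough to know this
for the geodesics along which the Liouville integral is close to a suitable constant `h₀`.

There is no hypothesis on conjugate points or on the convexity of the boundary, and no foliation
condition.

The idea of the proof: the transform is known on the geodesics with Liouville integral `h` for `h`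
close to `h₀`; the functionals obtained from a kernel of Cauchy type in the complexified phase
variables extend holomorphically in `h` to the complex plane and are constant by a growth bound, which
leads to a first order system for a distribution with compact support, and so to `f = 0`.
-/

set_option autoImplicit false

open MeasureTheory Set Pool.Agent.XRay

namespace Pool.Agent.Results.MP_ddd602_gt.LiouvilleMetrics

/-- the space `ℝ^{n+2}` -/
abbrev Sp (n : ℕ) : Type := EuclideanSpace ℝ (Fin (n + 2))

/-- fields of bilinear forms on `ℝ^{n+2}` -/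
abbrev Forms (n : ℕ) : Type := Sp n → Sp n →L[ℝ] Sp n →L[ℝ] ℝ

/-- `G` is a Riemannian metric on `ℝ^{n+2}` (with differentiable coefficients); on the planes
`z_2 = const, ..., z_{n+1} = const` it is the Liouville metric `(U(z_0) + V(z_1))(dz_0² + dz_1²)` with
smooth `U`, `V`, and these planes are orthogonal to the last `n` directions. Nothing is assumed on the
values of `G` on the last `n` directions. -/
structure LiouvillePlanes {n : ℕ} (U V : ℝ → ℝ) (G : Forms n) : Prop where
  smoothU : ContDiff ℝ (⊤ : ℕ∞) U
  smoothV : ContDiff ℝ (⊤ : ℕ∞) V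
  metric : IsMetric G
  plane : ∀ z v w : Sp n, (∀ i : Fin (n + 2), 2 ≤ (i : ℕ) → v i = 0) →
    G z v w = (U (z 0) + V (z 1)) * (v 0 * w 0 + v 1 * w 1)

/-- the classical first integral `(U + V)(U v_1² - V v_0²)` of the Liouville metric at the tangent
vector `v` at the point `z` -/
noncomputable def liouvilleIntegral {n : ℕ} (U V : ℝ → ℝ) (z v : Sp n) : ℝ :=
  (U (z 0) + V (z 1)) * (U (z 0) * v 1 ^ 2 - V (z 1) * v 0 ^ 2)

/-- The integrals of `f` vanish along the maximal segments in `M` of the unit speed geodesics
contained in a plane `z_2 = const, ..., z_{n+1} = const` and satisfying the condition `P`. -/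
def PlaneZero {n : ℕ} (G : Forms n) (M : Set (Sp n)) (f : Sp n → ℝ) (P : Sp n → Sp n → Prop) :
    Prop :=
  ∀ (γ : ℝ → Sp n) (u v s t : ℝ), u < s → s < t → t < v → UnitGeodesicOn G γ (Ioo u v) →
    (∀ τ ∈ Ioo u v, (∀ i : Fin (n + 2), 2 ≤ (i : ℕ) → deriv γ τ i = 0) ∧ P (γ τ) (deriv γ τ)) →
    MaximalSegment M γ s t → ∫ τ in s..t, f (γ τ) = 0

/-- `M` is a compact set with Lebesgue null frontier and `f` is continuous on `M`. -/
def NullFrontier {n : ℕ} (M : Set (Sp n)) (f : Sp n → ℝ) : Prop :=
  IsCompact M ∧ volume (frontier M) = 0 ∧ ContinuousOn f M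

/-- `{ρ ≥ 0}` is a compact regular domain of class `C¹` and `f` is continuous on it. -/
def RegularDomain {n : ℕ} (ρ f : Sp n → ℝ) : Prop :=
  ContDiff ℝ 1 ρ ∧ (∀ z, ρ z = 0 → fderiv ℝ ρ z ≠ 0) ∧ IsCompact {z | 0 ≤ ρ z} ∧
    ContinuousOn f {z | 0 ≤ ρ z}

/-- Injectivity of the geodesic X-ray transform on compact domains of `ℝ^{n+2}` for the metrics which
are Liouville metrics on the planes `z_2 = const, ..., z_{n+1} = const`: (1) from the geodesics in
these planes with Liouville integral close to `h₀`, (2) from all geodesics in these planes, (3) the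
case of a regular domain. -/
theorem result (n : ℕ) (U V : ℝ → ℝ) (G : Forms n) (hG : LiouvillePlanes U V G) :
    (∀ (M : Set (Sp n)) (f : Sp n → ℝ) (h₀ δ : ℝ), NullFrontier M f → 0 < δ →
      (∀ z ∈ M, -V (z 1) < h₀ ∧ h₀ < U (z 0)) →
      PlaneZero G M f (fun z v => |liouvilleIntegral U V z v - h₀| < δ) →
      ∀ z ∈ closure (interior M), f z = 0) ∧
    (∀ (M : Set (Sp n)) (f : Sp n → ℝ), NullFrontier M f →
      PlaneZero G M f (fun _ _ => True) → ∀ z ∈ closure (interior M), f z = 0) ∧
    (∀ ρ f : Sp n → ℝ, RegularDomain ρ f → PlaneZero G {z | 0 ≤ ρ z} f (fun _ _ => True) →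
      ∀ z, 0 ≤ ρ z → f z = 0) := by
  obtain ⟨p1, p2, p3⟩ := Pool.Agent.LIO.preview Pool.Agent.LIO.All.FIN n U V hG.smoothU hG.smoothV
    G hG.metric hG.plane
  refine ⟨?_, ?_, ?_⟩
  · intro M f h₀ δ hM hδ hb h0
    exact p1 M f h₀ δ hM.1 hM.2.1 hM.2.2 hδ hb h0
  · intro M f hM h0
    exact p2 M f hM.1 hM.2.1 hM.2.2 h0
  · intro ρ f hρ h0
    exact p3 ρ f hρ.1 hρ.2.1 hρ.2.2.1 hρ.2.2.2 h0

end Pool.Agent.Results.MP_ddd602_gt.LiouvilleMetrics
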