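import Pool.Agent.Lib_helper30.Tower.Euc

/-!
# Injectivity of the geodesic X-ray transform for metrics with two triangular gradients

Let `N = n + 2 ≥ 2` and let `G` be a Riemannian metric on `ℝ^N` (with differentiable coefficients)
such that the gradients of the last two coordinates are triangular: the component of index `i` of
these two vector fields only depends on the coordinates of index `> min (i, N - 1)` (indices
`1, ..., N`). In other words the last two rows of the inverse matrix of `G` have this property; all
the other entries of the inverse matrix are arbitrary functions of all the variables. For instance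
this holds if `G` has isometries which form a triangular family, as the left translations of a
simply connected solvable Lie group in suitable coordinates.

Let `M` be a compact set with Lebesgue null frontier and `f` a continuous function on `M`. If the
integral of `f` vanishes along the maximal segments in `M` of the unit speed geodesics which are
horizontal for the projection to the last two coordinates and almost orthogonal to the hypersurfaces
`{z_N = const}`, then `f = 0` on the closure of the interior of `M`. In particular `f = 0` on `M` if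
`M = {ρ ≥ 0}` is a regular domain of class `C¹`.

There is no hypothesis on conjugate points, on trapping or on the convexity of the boundary, and no
foliation condition. Only a family of geodesics with `N` parameters is used.
-/

set_option autoImplicit false

open MeasureTheory Set Pool.Agent.XRay Pool.Agent.XTower

namespace Pool.Agent.Results.MP_ddd602_gt.TriangularGradients

section general

variable {E : Type*} [NormedAddCommGroup E] [NormedSpace ℝ E]

/-- The vector field `A` is the gradient of the linear function `α` for the metric `G`. -/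
def IsGradient (G : E → E →L[ℝ] E →L[ℝ] ℝ) (α : E → ℝ) (A : E → E) : Prop :=
  ∀ z w, G z (A z) w = α w

/-- The differentiable map `Ψ` preserves the metric `G`. -/
def Preserves (G : E → E →L[ℝ] E →L[ℝ] ℝ) (Ψ : E → E) : Prop :=
  Differentiable ℝ Ψ ∧ ∀ z v w, G (Ψ z) (fderiv ℝ Ψ z v) (fderiv ℝ Ψ z w) = G z v w

/-- `∫_s^t f(γ(τ)) dτ = 0` for every unit speed geodesic `γ : (u, v) → E` of the metric `G` whose
momentum `G(γ', ·)` vanishes on `H` and is at most `δ` in absolute value on the vector `e`, and for
every maximal segment `[s, t] ⊆ (u, v)` of `γ` in `M`. -/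
def HorizontalZero (G : E → E →L[ℝ] E →L[ℝ] ℝ) (H : Set E) (e : E) (δ : ℝ) (M : Set E)
    (f : E → ℝ) : Prop :=
  ∀ (γ : ℝ → E) (u v s t : ℝ), u < s → s < t → t < v → UnitGeodesicOn G γ (Ioo u v) →
    (∀ τ ∈ Ioo u v, (∀ x ∈ H, G (γ τ) (deriv γ τ) x = 0) ∧ |G (γ τ) (deriv γ τ) e| ≤ δ) →
    MaximalSegment M γ s t → ∫ τ in s..t, f (γ τ) = 0

end general

/-- the space `ℝ^(n+2)` -/
abbrev Sp (n : ℕ) : Type := EuclideanSpace ℝ (Fin (n + 2))

/-- fields of bilinear forms on `ℝ^(n+2)` -/
abbrev Fields (n : ℕ) : Type := Sp n → Sp n →L[ℝ] Sp n →L[ℝ] ℝ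

/-- the index of the last but one coordinate -/
abbrev pen (n : ℕ) : Fin (n + 2) := (Fin.last n).castSucc

/-- the index of the last coordinate -/
abbrev lst (n : ℕ) : Fin (n + 2) := Fin.last (n + 1)

/-- The gradients `A` and `B` of the last two coordinates (the last two rows of the inverse matrix
of `G`) are triangular: their coordinates with index `i` only depend on the coordinates `z k` with
`k > min i (pen n)`. So the coordinate of index `i ≤ pen n` only depends on the following
coordinates, and the last one only on the last coordinate. -/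
def GradientsTriangular {n : ℕ} (G : Fields n) : Prop :=
  ∃ A B : Sp n → Sp n, IsGradient G (fun w => w (pen n)) A ∧ IsGradient G (fun w => w (lst n)) B ∧
    ∀ (i : Fin (n + 2)) (z z' : Sp n), (∀ k, min i (pen n) < k → z k = z' k) →
      A z i = A z' i ∧ B z i = B z' i

/-- For every coordinate `k` except the last one and every real `r` there is an isometry `Ψ` of the
metric `G` with `Ψ(z)_k = z_k + r` and `Ψ(z)_i = z_i` for `i > k` (there is no condition on the
coordinates `Ψ(z)_i` with `i < k`). -/
def TriangularIsometries {n : ℕ} (G : Fields n) : Prop :=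
  ∀ (k : Fin (n + 2)) (r : ℝ), k < lst n → ∃ Ψ : Sp n → Sp n, Preserves G Ψ ∧
    (∀ z, Ψ z k = z k + r) ∧ ∀ z i, k < i → Ψ z i = z i

/-- The integrals of `f` vanish along the maximal segments in `M` of the unit speed geodesics which
are horizontal for the projection to the last two coordinates, and whose momentum is at most `δ` on
the last but one basis vector. -/
def DataZero {n : ℕ} (G : Fields n) (δ : ℝ) (M : Set (Sp n)) (f : Sp n → ℝ) : Prop :=
  HorizontalZero G {x | x (pen n) = 0 ∧ x (lst n) = 0} (EuclideanSpace.single (pen n) 1) δ M f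

/-- `M` is a compact set with Lebesgue null frontier and `f` is continuous on `M`. -/
def NullFrontier {n : ℕ} (M : Set (Sp n)) (f : Sp n → ℝ) : Prop :=
  IsCompact M ∧ volume (frontier M) = 0 ∧ ContinuousOn f M

/-- `{ρ ≥ 0}` is a compact regular domain of class `C¹` and `f` is continuous on it. -/
def RegularDomain {n : ℕ} (ρ f : Sp n → ℝ) : Prop :=
  ContDiff ℝ 1 ρ ∧ (∀ z, ρ z = 0 → fderiv ℝ ρ z ≠ 0) ∧ IsCompact {z | 0 ≤ ρ z} ∧
    ContinuousOn f {z | 0 ≤ ρ z}

/-- Injectivity of the geodesic X-ray transform, already for horizontal geodesics almost orthogonal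
to the hypersurfaces `{z_N = const}`, on compact domains of `ℝ^N`, `N = n + 2 ≥ 2`, with a
Riemannian metric such that the gradients of the last two coordinates are triangular, or which has
triangular isometries. -/
theorem result (n : ℕ) (G : Fields n) (hG : IsMetric G)
    (hT : GradientsTriangular G ∨ TriangularIsometries G) (δ : ℝ) (hδ : 0 < δ) :
    (∀ (M : Set (Sp n)) (f : Sp n → ℝ), NullFrontier M f → DataZero G δ M f →
      ∀ z ∈ closure (interior M), f z = 0) ∧
    (∀ ρ f : Sp n → ℝ, RegularDomain ρ f → DataZero G δ {z | 0 ≤ ρ z} f →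
      ∀ z, 0 ≤ ρ z → f z = 0) := by
  have main : ∀ (M : Set (Sp n)) (f : Sp n → ℝ), NullFrontier M f → DataZero G δ M f →
      ∀ z ∈ closure (interior M), f z = 0 := by
    intro M f hM h0
    have h1 : HorZero G M f δ := by
      intro γ u v s t hus hst htv hγ hh hseg
      exact h0 γ u v s t hus hst htv hγ (fun τ hτ => ⟨fun x hx => (hh τ hτ).1 x hx.1 hx.2,
        (hh τ hτ).2⟩) hseg
    rcases hT with ⟨A, B, hA, hB, hAB⟩ | hI
    · exact hor_injective hG ⟨hA, hB, hAB⟩ hδ hM.1 hM.2.1 hM.2.2 h1
    · have hI' : TriIso G := by
        intro k r hk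
        obtain ⟨Ψ, h2, h3, h4⟩ := hI k r hk
        exact ⟨Ψ, h2.1, h2.2, h3, h4⟩
      exact hor_injective hG (triGrad_of_iso hG hI') hδ hM.1 hM.2.1 hM.2.2 h1
  refine ⟨main, ?_⟩
  intro ρ f hρ h0 z hz
  exact main _ f ⟨hρ.2.2.1, regular_null hρ.1 hρ.2.1 volume, hρ.2.2.2⟩ h0 z
    (regular_closure hρ.1 hρ.2.1 hz)

end Pool.Agent.Results.MP_ddd602_gt.TriangularGradients
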